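import Pool.Agent.Y877.SxP

/-!
# Several even numbers with a common prime-indexed summand

Let `M` be the product of the primes `≤ y`, where `K₀ log log x ≤ y ≤ K₁ log log x`. For almost all vectors
`(a 1, ..., a k)` of multiples of `M` between `x` and `2 x` (also in short windows) there are many primes `p ≤ x` with
`π(p)` prime such that ALL the numbers `a 1 - p, ..., a k - p` are prime, at least as many as expected, up to the factor
`1 - ε`. The same holds for the primes `p` for which `p, π(p), π(π(p)), ..., π^j(p)` are all prime, and for arbitrary sets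
of primes with at least `x / log ^ A x` elements.

The case `k = 1`, `j = 1` is the starting file `AlmostAllMultiples`; the proof is by induction on `k`, applying the theorem
behind it (`Pool.Agent.Y877.SX.step_neg`) to the set of the primes found for the first `k` numbers.
-/

set_option autoImplicit false

open Finset

namespace Pool.Agent.Results.MP_5d7b92_nt.CommonSummand

open Pool.Agent.H373R2.T7 (Vz Vz_pos Vz_le_one ev_L' ev_log')

/-- the product of `1 - 1/q` over the primes `q ≤ y` -/
noncomputable def V (y : ℕ) : ℝ := ∏ q ∈ (Icc 1 y).filter Nat.Prime, (1 - 1 / (q : ℝ))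

open Classical in
/-- the primes `p ≤ x` such that `p, π(p), π(π(p)), ..., π^j(p)` are all prime -/
noncomputable def PP (j x : ℕ) : Finset ℕ := (Icc 1 x).filter (fun p => ∀ i ≤ j, (Nat.primeCounting^[i] p).Prime)

open Classical in
/-- the `p ∈ S` such that all the `a i - p` are prime -/
noncomputable def Rep {k : ℕ} (S : Finset ℕ) (a : Fin k → ℕ) : Finset ℕ := S.filter (fun p => ∀ i, (a i - p).Prime)

open Classical in
/-- the vectors `m` in the box `1 ≤ m i ≤ G i` for which the numbers `M (g i + m i)` have fewer than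
`(1 - ε) #S / (V y log x) ^ k` common summands `p ∈ S` with all `M (g i + m i) - p` prime -/
noncomputable def Exc {k : ℕ} (ε : ℝ) (S : Finset ℕ) (x y : ℕ) (g G : Fin k → ℕ) : Finset (Fin k → ℕ) :=
  (Fintype.piFinset fun i => Icc 1 (G i)).filter (fun m =>
    ((Rep S (fun i => primorial y * (g i + m i))).card : ℝ) < (1 - ε) * (S.card / (V y * Real.log x) ^ k))

/-- the conditions on the windows `(g i, g i + G i]` -/
def Windows {k : ℕ} (C x y : ℕ) (g G : Fin k → ℕ) : Prop :=
  ∀ i, x ≤ primorial y * g i ∧ primorial y * (g i + G i) ≤ 2 * x ∧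
    (x : ℝ) ≤ primorial y * G i * Real.log x ^ C

lemma multi (k : ℕ) : ∀ (A C : ℕ) (ε : ℝ), 0 < ε → ε ≤ 1 → ∃ K₀ : ℕ, ∀ K₁ : ℕ, ∃ x₀ : ℕ, ∀ x : ℕ, x₀ ≤ x →
    ∀ y : ℕ, K₀ * Real.log (Real.log x) ≤ y → y ≤ K₁ * Real.log (Real.log x) →
    ∀ S : Finset ℕ, S ⊆ Icc 1 x → (∀ p ∈ S, p.Prime) → (x : ℝ) ≤ S.card * Real.log x ^ A →
    ∀ g G : Fin k → ℕ, Windows C x y g G → ((Exc ε S x y g G).card : ℝ) ≤ ε * ∏ i, (G i : ℝ) := by
  classical
  induction k with
  | zero =>
    intro A C ε hε hε1
    refine ⟨0, fun K₁ => ⟨0, fun x hx y hy1 hy2 S hS hSp hSc g G hW => ?_⟩⟩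
    have h : Exc ε S x y g G = ∅ := by
      unfold Exc
      rw [filter_eq_empty_iff]
      intro m _ h
      have e : Rep S (fun i : Fin 0 => primorial y * (g i + m i)) = S := by
        unfold Rep
        rw [filter_true_of_mem]
        intro p _ i
        exact i.elim0
      rw [e, pow_zero, div_one] at h
      have : (0 : ℝ) ≤ S.card := Nat.cast_nonneg _
      nlinarith
    rw [h, card_empty]
    simp [hε.le]
  | succ k ih =>
    intro A C ε hε hε1
    obtain ⟨K, hK⟩ := ih A C (ε / 2) (by positivity) (by linarith)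
    obtain ⟨K', hK'⟩ := Pool.Agent.Y877.SX.step_neg 1 (Or.inl rfl) (A + k + 1) C (ε / 2) (by positivity) (by linarith)
    refine ⟨max K K', fun K₁ => ?_⟩
    obtain ⟨n1, hn1⟩ := hK K₁
    obtain ⟨n2, hn2⟩ := hK' K₁
    obtain ⟨n3, hn3⟩ := ev_L' 3
    refine ⟨max n1 (max n2 n3), fun x hx y hy1 hy2 S hS hSp hSc g G hW => ?_⟩
    have b1 : n1 ≤ x := le_trans (le_max_left _ _) hx
    have b2 : n2 ≤ x := le_trans (le_trans (le_max_left _ _) (le_max_right _ _)) hx
    have b3 : n3 ≤ x := le_trans (le_trans (le_max_right _ _) (le_max_right _ _)) hx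
    have hL := hn3 x b3
    have hL1 : 1 ≤ Real.log x := by linarith
    have hLL : 0 ≤ Real.log (Real.log x) := Real.log_nonneg hL1
    have hy1a : K * Real.log (Real.log x) ≤ y :=
      le_trans (mul_le_mul_of_nonneg_right (by exact_mod_cast le_max_left K K') hLL) hy1
    have hy1b : K' * Real.log (Real.log x) ≤ y :=
      le_trans (mul_le_mul_of_nonneg_right (by exact_mod_cast le_max_right K K') hLL) hy1
    have hV : V y = Vz y := rfl
    have hV0 : 0 < V y := by rw [hV]; exact Vz_pos y
    have hV1 : V y ≤ 1 := by rw [hV]; exact Vz_le_one y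
    set L := Real.log x with hLd
    have hL0 : 0 < L := by linarith
    have hVL : 0 < V y * L := by positivity
    have hVL1 : V y * L ≤ L := by nlinarith
    -- the first `k` coordinates
    set g' : Fin k → ℕ := Fin.init g with hg'
    set G' : Fin k → ℕ := Fin.init G with hG'
    have h1 := hn1 x b1 y hy1a hy2 S hS hSp hSc g' G' (fun i => hW i.castSucc)
    set B := Exc (ε / 2) S x y g' G' with hB
    set D : Finset (Fin k → ℕ) := (Fintype.piFinset fun i => Icc 1 (G' i)) with hD
    set last : (Fin k → ℕ) → Finset ℕ := fun m => (Icc 1 (G (Fin.last k))).filter (fun a =>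
      (((Rep S (fun i => primorial y * (g' i + m i))).filter
        (fun s => (primorial y * (g (Fin.last k) + a) - s ^ 1).Prime)).card : ℝ) <
        (1 - ε / 2) * ((Rep S (fun i => primorial y * (g' i + m i))).card / (Vz y * ((1 : ℕ) * L)))) with hlast
    -- good vectors
    have hgood : ∀ m ∈ D \ B, ((last m).card : ℝ) ≤ ε / 2 * G (Fin.last k) ∧
        (1 - ε / 2) * (S.card / (V y * L) ^ k) ≤ ((Rep S (fun i => primorial y * (g' i + m i))).card : ℝ) := by
      intro m hm
      rw [mem_sdiff] at hm
      have h2 : (1 - ε / 2) * (S.card / (V y * L) ^ k) ≤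
          ((Rep S (fun i => primorial y * (g' i + m i))).card : ℝ) := by
        by_contra hcon
        push Not at hcon
        exact hm.2 (mem_filter.2 ⟨hm.1, hcon⟩)
      refine ⟨?_, h2⟩
      have h3 : (x : ℝ) ≤ (Rep S (fun i => primorial y * (g' i + m i))).card * L ^ (A + k + 1) := by
        have h4 : (1 / 2 : ℝ) * (S.card / L ^ k) ≤ (Rep S (fun i => primorial y * (g' i + m i))).card := by
          refine le_trans ?_ h2
          apply mul_le_mul (by linarith) _ (by positivity) (by linarith)
          exact div_le_div_of_nonneg_left (Nat.cast_nonneg _) (by positivity)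
            (pow_le_pow_left₀ hVL.le hVL1 k)
        calc (x : ℝ) ≤ S.card * L ^ A := hSc
          _ = 1 / 2 * (S.card / L ^ k) * (L ^ (A + k) * 2) := by
              rw [pow_add]
              field_simp
          _ ≤ 1 / 2 * (S.card / L ^ k) * (L ^ (A + k) * L) := by
              apply mul_le_mul_of_nonneg_left _ (by positivity)
              exact mul_le_mul_of_nonneg_left (by linarith) (by positivity)
          _ ≤ (Rep S (fun i => primorial y * (g' i + m i))).card * (L ^ (A + k) * L) :=
              mul_le_mul_of_nonneg_right h4 (by positivity)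
          _ = _ := by rw [pow_succ L (A + k)]
      obtain ⟨w1, w2, w3⟩ := hW (Fin.last k)
      exact hn2 x b2 y hy1b hy2 (Rep S (fun i => primorial y * (g' i + m i)))
        ((filter_subset _ _).trans hS) (fun s hs => hSp s (mem_filter.1 hs).1) h3
        (g (Fin.last k)) (G (Fin.last k)) (by rw [pow_one]; exact w1) (by rw [pow_one]; exact w2)
        (by rw [pow_one]; exact w3)
    -- the exceptional set
    set T : Finset ((Fin k → ℕ) × ℕ) := (B ×ˢ Icc 1 (G (Fin.last k))) ∪
      ((D \ B).biUnion fun m => ({m} : Finset (Fin k → ℕ)) ×ˢ last m) with hT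
    have hinj : (Exc ε S x y g G).card ≤ T.card := by
      refine card_le_card_of_injOn (fun f => (Fin.init f, f (Fin.last k))) ?_ ?_
      · intro f hf
        rw [mem_coe] at hf ⊢
        unfold Exc at hf
        rw [mem_filter, Fintype.mem_piFinset] at hf
        obtain ⟨hf1, hf2⟩ := hf
        have hfD : Fin.init f ∈ D := by
          rw [hD, Fintype.mem_piFinset]
          exact fun i => hf1 i.castSucc
        rw [hT, mem_union]
        by_cases hfB : Fin.init f ∈ B
        · left
          exact mem_product.2 ⟨hfB, hf1 _⟩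
        · right
          rw [mem_biUnion]
          refine ⟨Fin.init f, mem_sdiff.2 ⟨hfD, hfB⟩, mem_product.2 ⟨mem_singleton_self _, ?_⟩⟩
          obtain ⟨-, h5⟩ := hgood _ (mem_sdiff.2 ⟨hfD, hfB⟩)
          rw [hlast]
          simp only
          rw [mem_filter]
          refine ⟨hf1 _, ?_⟩
          have e1 : (Rep S (fun i => primorial y * (g' i + Fin.init f i))).filter
              (fun s => (primorial y * (g (Fin.last k) + f (Fin.last k)) - s ^ 1).Prime) =
              Rep S (fun i => primorial y * (g i + f i)) := by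
            unfold Rep
            rw [filter_filter]
            apply filter_congr
            intro s _
            rw [pow_one, Fin.forall_fin_succ']
            rfl
          rw [e1]
          refine lt_of_lt_of_le hf2 ?_
          have e2 : Vz y * ((1 : ℕ) * L) = V y * L := by
            rw [hV]
            push_cast
            ring
          rw [e2]
          calc (1 - ε) * ((S.card : ℝ) / (V y * L) ^ (k + 1))
              ≤ (1 - ε / 2) * (1 - ε / 2) * ((S.card : ℝ) / (V y * L) ^ (k + 1)) := by
                apply mul_le_mul_of_nonneg_right _ (by positivity)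
                nlinarith
            _ = (1 - ε / 2) * ((1 - ε / 2) * ((S.card : ℝ) / (V y * L) ^ k) / (V y * L)) := by
                rw [pow_succ]
                field_simp
            _ ≤ _ := by
                apply mul_le_mul_of_nonneg_left _ (by linarith)
                exact div_le_div_of_nonneg_right h5 hVL.le
      · intro f _ f' _ h
        simp only [Prod.mk.injEq] at h
        rw [← Fin.snoc_init_self f, ← Fin.snoc_init_self f', h.1, h.2]
    have hTc : (T.card : ℝ) ≤ ε * ∏ i, (G i : ℝ) := by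
      have hDc : (D.card : ℝ) = ∏ i : Fin k, (G' i : ℝ) := by
        rw [hD, Fintype.card_piFinset]
        push_cast
        refine prod_congr rfl fun i _ => ?_
        rw [Nat.card_Icc, Nat.add_sub_cancel]
      have hG0 : (0 : ℝ) ≤ G (Fin.last k) := Nat.cast_nonneg _
      have h6 : T.card ≤ B.card * G (Fin.last k) + ∑ m ∈ D \ B, (last m).card := by
        refine (card_union_le _ _).trans (Nat.add_le_add ?_ ?_)
        · rw [card_product, Nat.card_Icc, Nat.add_sub_cancel]
        · refine card_biUnion_le.trans (le_of_eq ?_)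
          refine sum_congr rfl fun m _ => ?_
          rw [card_product, card_singleton, one_mul]
      have h7 : (T.card : ℝ) ≤ B.card * G (Fin.last k) + ∑ m ∈ D \ B, ((last m).card : ℝ) := by
        exact_mod_cast h6
      have h8 : ∑ m ∈ D \ B, ((last m).card : ℝ) ≤ D.card * (ε / 2 * G (Fin.last k)) := by
        refine (sum_le_sum fun m hm => (hgood m hm).1).trans ?_
        rw [sum_const, nsmul_eq_mul]
        apply mul_le_mul_of_nonneg_right _ (by positivity)
        exact_mod_cast card_le_card sdiff_subset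
      have h9 : (B.card : ℝ) ≤ ε / 2 * ∏ i : Fin k, (G' i : ℝ) := h1
      rw [Fin.prod_univ_castSucc]
      have e3 : ∏ i : Fin k, (G i.castSucc : ℝ) = ∏ i : Fin k, (G' i : ℝ) := rfl
      rw [e3]
      rw [hDc] at h8
      have h10 := mul_le_mul_of_nonneg_right h9 hG0
      nlinarith
    exact le_trans (by exact_mod_cast hinj) hTc

/-! ## Iterated prime indices -/

lemma PP_succ (j x : ℕ) : (PP j (Nat.primeCounting x)).card ≤ (PP (j + 1) x).card := by
  classical
  apply card_le_card_of_injOn (fun q => Nat.nth Nat.Prime (q - 1))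
  · intro q hq
    rw [mem_coe] at hq
    unfold PP at hq
    rw [mem_filter, mem_Icc] at hq
    obtain ⟨⟨hq1, hq2⟩, hq3⟩ := hq
    have hlt : q - 1 < Nat.primeCounting x := by omega
    have hle : Nat.nth Nat.Prime (q - 1) < x + 1 := Nat.nth_lt_of_lt_count hlt
    have hpp : (Nat.nth Nat.Prime (q - 1)).Prime := Nat.prime_nth_prime _
    have hpi : Nat.primeCounting (Nat.nth Nat.Prime (q - 1)) = q := by
      have h7 : Nat.primeCounting (Nat.nth Nat.Prime (q - 1)) =
        Nat.count Nat.Prime (Nat.nth Nat.Prime (q - 1) + 1) := rfl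
      rw [h7, Nat.count_succ, if_pos hpp]
      have h8 : Nat.count Nat.Prime (Nat.nth Nat.Prime (q - 1)) = q - 1 := Nat.primeCounting'_nth_eq (q - 1)
      omega
    rw [mem_coe]
    unfold PP
    rw [mem_filter, mem_Icc]
    refine ⟨⟨hpp.one_lt.le, (by omega : Nat.nth Nat.Prime (q - 1) ≤ x)⟩, ?_⟩
    intro i hi
    rcases Nat.eq_zero_or_pos i with h0 | h0
    · subst h0
      exact hpp
    · obtain ⟨i', rfl⟩ : ∃ i', i = i' + 1 := ⟨i - 1, by omega⟩
      rw [Function.iterate_succ_apply, hpi]
      exact hq3 i' (by omega)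
  · intro a ha b hb hab
    rw [mem_coe] at ha hb
    unfold PP at ha hb
    rw [mem_filter, mem_Icc] at ha hb
    have := Nat.nth_injective Nat.infinite_setOfPred_prime hab
    omega

lemma PP_zero (x : ℕ) : (PP 0 x).card = Nat.primeCounting x := by
  classical
  rw [← Nat.primesLE_card_eq_primeCounting]
  congr 1
  unfold PP
  ext q
  rw [Nat.mem_primesLE, mem_filter, mem_Icc]
  constructor
  · rintro ⟨⟨_, a⟩, b⟩
    exact ⟨a, b 0 le_rfl⟩
  · rintro ⟨a, b⟩
    refine ⟨⟨b.one_lt.le, a⟩, fun i hi => ?_⟩
    have : i = 0 := by omega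
    subst this
    exact b

lemma PP_low (j : ℕ) : ∃ x0 : ℕ, ∀ x : ℕ, x0 ≤ x →
    (x : ℝ) / (2 * Real.log x) ^ (j + 1) ≤ ((PP j x).card : ℝ) := by
  induction j with
  | zero =>
    obtain ⟨x1, h1⟩ := Pool.Agent.Y877.SX.pi_low
    refine ⟨x1, fun x hx => ?_⟩
    rw [PP_zero, zero_add, pow_one]
    exact h1 x hx
  | succ j ih =>
    obtain ⟨x1, h1⟩ := Pool.Agent.Y877.SX.pi_low
    obtain ⟨x2, h2⟩ := ih
    obtain ⟨x3, h3⟩ := ev_log' 1 (2 * (x2 + 4))
    refine ⟨max x1 (max x3 9), fun x hx => ?_⟩
    have b1 := h1 x ((le_max_left _ _).trans hx)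
    have b2 := h3 x (((le_max_left _ _).trans (le_max_right _ _)).trans hx)
    have b3 : 9 ≤ x := ((le_max_right _ _).trans (le_max_right _ _)).trans hx
    have hxr : (9 : ℝ) ≤ x := by exact_mod_cast b3
    have hx0 : (0 : ℝ) < x := by linarith
    have hL0 : 0 < Real.log x := Real.log_pos (by linarith)
    rw [pow_one] at b2
    have hss : √(x : ℝ) * √(x : ℝ) = x := Real.mul_self_sqrt hx0.le
    have hs1 : 1 ≤ √(x : ℝ) := by
      apply Real.le_sqrt_of_sq_le
      linarith
    have hbig : (x2 : ℝ) + 4 ≤ x / (2 * Real.log x) := by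
      rw [le_div_iff₀ (by positivity)]
      have h3 : √(x : ℝ) ≤ x := by
        calc √(x : ℝ) = √(x : ℝ) * 1 := (mul_one _).symm
          _ ≤ √(x : ℝ) * √(x : ℝ) := mul_le_mul_of_nonneg_left hs1 (Real.sqrt_nonneg _)
          _ = x := hss
      linarith
    set m := Nat.primeCounting x with hm
    have hx2m : x2 ≤ m := by
      have : (x2 : ℝ) ≤ m := by linarith
      exact_mod_cast this
    have hm4 : (4 : ℝ) ≤ m := by
      have : (0 : ℝ) ≤ x2 := Nat.cast_nonneg _
      linarith
    have hmx : m ≤ x := by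
      rw [hm, ← PP_zero]
      refine (card_le_card (filter_subset _ _)).trans ?_
      rw [Nat.card_Icc, Nat.add_sub_cancel]
    have hmxr : (m : ℝ) ≤ x := by exact_mod_cast hmx
    have hlm0 : 0 < Real.log m := Real.log_pos (by linarith)
    have hlm : Real.log m ≤ Real.log x := Real.log_le_log (by linarith) hmxr
    have k1 := h2 m hx2m
    have k2 : ((PP j m).card : ℝ) ≤ (PP (j + 1) x).card := by exact_mod_cast PP_succ j x
    refine le_trans ?_ (k1.trans k2)
    calc (x : ℝ) / (2 * Real.log x) ^ (j + 1 + 1)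
        = (x / (2 * Real.log x)) / (2 * Real.log x) ^ (j + 1) := by
          rw [pow_succ _ (j + 1)]
          field_simp
      _ ≤ m / (2 * Real.log x) ^ (j + 1) := div_le_div_of_nonneg_right b1 (by positivity)
      _ ≤ m / (2 * Real.log m) ^ (j + 1) := by
          apply div_le_div_of_nonneg_left (by positivity) (by positivity)
          exact pow_le_pow_left₀ (by positivity) (by linarith) _

/-- **Common prime-indexed summands.** For all `k`, `j`, `A`, `C` and `0 < ε ≤ 1` there is `K₀` such that for every `K₁`,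
every large `x`, every `y` between `K₀ log log x` and `K₁ log log x`, with `M` the product of the primes `≤ y`, and all
windows `(g i, g i + G i]` (`i < k`) with `x ≤ M g i`, `M (g i + G i) ≤ 2 x`, `G i ≥ x / (M log ^ C x)`:

1. for every set `S` of at least `x / log ^ A x` primes `p ≤ x`, for all vectors `m` in the box `1 ≤ m i ≤ G i` with at
   most `ε ∏ G i` exceptions, there are at least `(1 - ε) #S / (V y log x) ^ k` elements `p` of `S` such that all the
   numbers `M (g i + m i) - p` are prime;
2. there are at least `x / (2 log x) ^ (j + 1)` primes `p ≤ x` for which `p, π(p), ..., π^j(p)` are all prime, and the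
   conclusion of 1 holds for the set of all of them. -/
theorem result (k j A C : ℕ) (ε : ℝ) (hε : 0 < ε) (hε1 : ε ≤ 1) : ∃ K₀ : ℕ, ∀ K₁ : ℕ, ∃ x₀ : ℕ, ∀ x : ℕ, x₀ ≤ x →
    ∀ y : ℕ, K₀ * Real.log (Real.log x) ≤ y → y ≤ K₁ * Real.log (Real.log x) →
    ∀ g G : Fin k → ℕ, Windows C x y g G →
    (∀ S : Finset ℕ, S ⊆ Icc 1 x → (∀ p ∈ S, p.Prime) → (x : ℝ) ≤ S.card * Real.log x ^ A →
      ((Exc ε S x y g G).card : ℝ) ≤ ε * ∏ i, (G i : ℝ)) ∧
    (x : ℝ) / (2 * Real.log x) ^ (j + 1) ≤ ((PP j x).card : ℝ) ∧
    ((Exc ε (PP j x) x y g G).card : ℝ) ≤ ε * ∏ i, (G i : ℝ) := by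
  classical
  obtain ⟨K₀, hK₀⟩ := multi k (max A (j + 2)) C ε hε hε1
  refine ⟨K₀, fun K₁ => ?_⟩
  obtain ⟨n1, hn1⟩ := PP_low j
  obtain ⟨n2, hn2⟩ := hK₀ K₁
  obtain ⟨n3, hn3⟩ := ev_L' (2 ^ (j + 1))
  refine ⟨max n1 (max n2 n3), fun x hx y hy1 hy2 g G hW => ?_⟩
  have b1 : n1 ≤ x := le_trans (le_max_left _ _) hx
  have b2 : n2 ≤ x := le_trans (le_trans (le_max_left _ _) (le_max_right _ _)) hx
  have b3 : n3 ≤ x := le_trans (le_trans (le_max_right _ _) (le_max_right _ _)) hx
  have hL := hn3 x b3
  have hL1 : 1 ≤ Real.log x := le_trans (one_le_pow₀ (by norm_num)) hL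
  have hL0 : 0 < Real.log x := by linarith
  have hlow := hn1 x b1
  refine ⟨fun S hS hSp hSc => hn2 x b2 y hy1 hy2 S hS hSp (hSc.trans ?_) g G hW, hlow,
    hn2 x b2 y hy1 hy2 (PP j x) (filter_subset _ _) (fun p hp => (mem_filter.1 hp).2 0 (Nat.zero_le _)) ?_ g G hW⟩
  · apply mul_le_mul_of_nonneg_left _ (Nat.cast_nonneg _)
    exact pow_le_pow_right₀ hL1 (le_max_left _ _)
  · rw [div_le_iff₀ (by positivity)] at hlow
    have hc0 : (0 : ℝ) ≤ (PP j x).card := Nat.cast_nonneg _
    calc (x : ℝ) ≤ (PP j x).card * (2 * Real.log x) ^ (j + 1) := hlow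
      _ = (PP j x).card * (2 ^ (j + 1) * Real.log x ^ (j + 1)) := by rw [mul_pow]
      _ ≤ (PP j x).card * (Real.log x * Real.log x ^ (j + 1)) := by
          apply mul_le_mul_of_nonneg_left _ hc0
          exact mul_le_mul_of_nonneg_right hL (by positivity)
      _ = (PP j x).card * Real.log x ^ (j + 2) := by rw [pow_succ' _ (j + 1)]
      _ ≤ (PP j x).card * Real.log x ^ (max A (j + 2)) := by
          apply mul_le_mul_of_nonneg_left _ hc0
          exact pow_le_pow_right₀ hL1 (le_max_right _ _)

end Pool.Agent.Results.MP_5d7b92_nt.CommonSummand
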