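import Pool.Agent.Q331.E3.PIP
import Pool.Agent.Q331.Dyad
import Pool.Agent.Q331.AllMult

/-!
# MP_5d7b92_nt: EVERY number in long windows around ALL multiples of almost every real number is a sum of a prime-indexed prime and an almost prime

Let `K ≥ 1` and `0 < c < 1`. For all large `Y` and all real `y` in `[Y, 2 Y]` outside a set of measure at most
`Y ^ (1 - c / 2)`: for ALL `k ≤ Y ^ K` (no exceptions) EVERY integer `N` with `|N - k y| ≤ Y ^ (1 - c)` is of the form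
`N = p + m s` for a positive proportion of all primes `p` with `π(p)` prime, where all prime factors of `m` are
`< N ^ ε` and `s` has at most two prime factors, which are `> N ^ (1 / 8)`. In particular (`k = 1`, ..., `k = Y ^ K`)
this holds for the integer parts of all the multiples `y, 2 y, 3 y, ...` up to `Y ^ (K + 1)`.

From Mathlib: `Nat.primeCounting`: the function `π`; `volume`: the Lebesgue measure; `s.primeFactorsList`: the list of
the prime factors with multiplicity. The bound for the number of the exceptional `N` is the theorem of helper234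
(`Pool.Agent.Q331.E3.PIP` is a copy of the file `PrimeIndexedPlusAlmostPrime`).
-/

set_option autoImplicit false

open Finset Filter Topology MeasureTheory

namespace Pool.Agent.Results.MP_5d7b92_nt.EveryMultiple

open Classical in
/-- the primes `p ≤ X` with `π(p)` prime -/
noncomputable def PP (X : ℕ) : Finset ℕ := (Icc 1 X).filter (fun p => p.Prime ∧ (Nat.primeCounting p).Prime)

/-- `N = p + m s`, where all prime factors of `m` are `< N ^ ε` and `s` has at most two prime factors (counted with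
multiplicity), all of them `> N ^ (1 / 8)` -/
def Represents (ε : ℝ) (N p : ℕ) : Prop :=
  ∃ m s : ℕ, 0 < m ∧ 0 < s ∧ p + m * s = N ∧
    (∀ l : ℕ, l.Prime → l ∣ m → (l : ℝ) < (N : ℝ) ^ ε) ∧
    s.primeFactorsList.length ≤ 2 ∧ ∀ q ∈ s.primeFactors, (N : ℝ) ^ (1 / 8 : ℝ) < q

open Classical in
/-- The number of the primes `p ≤ N` with `π(p)` prime and `N = p + m s` as above is at least the proportion `c₀` of
the number of all primes `p ≤ N / 2` with `π(p)` prime. -/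
def Good (ε c₀ : ℝ) (N : ℕ) : Prop := c₀ * (PP (N / 2)).card ≤ ((PP N).filter (Represents ε N)).card

lemma mono {X Y : ℕ} (h : X ≤ Y) : PP X ⊆ PP Y := by
  classical
  intro p hp
  unfold PP at hp ⊢
  rw [mem_filter, mem_Icc] at hp ⊢
  exact ⟨⟨hp.1.1, hp.1.2.trans h⟩, hp.2⟩

/-- at the scale `X`: the exceptional numbers in `(X, 2 X]` -/
lemma scale (ε : ℝ) (hε : 0 < ε) : ∃ c C : ℝ, 0 < c ∧ ∀ᶠ X : ℕ in atTop,
    (Set.ncard {N : ℕ | X < N ∧ N ≤ 2 * X ∧ ¬ Good ε c N} : ℝ) ≤ C * Real.log X := by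
  classical
  obtain ⟨c, C, η, hc, -, -, -, h⟩ := Pool.Agent.Q331.E3.PIP.result ε hε
  refine ⟨c, C, hc, ?_⟩
  filter_upwards [h, eventually_ge_atTop 256] with X h1 hX
  have hXr : (256 : ℝ) ≤ X := by exact_mod_cast hX
  have hX0 : (0 : ℝ) < X := by linarith
  have hsub : {N : ℕ | X < N ∧ N ≤ 2 * X ∧ ¬ Good ε c N} ⊆ {N : ℕ | X < N ∧ N ≤ 2 * X ∧
      (Set.ncard {p : ℕ | p ∈ Pool.Agent.Q331.E3.PIP.PP X ∧ Pool.Agent.Q331.E3.PIP.Represents ε X N p} : ℝ) <
        c * (Pool.Agent.Q331.E3.PIP.PP X).card} := by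
    rintro N ⟨h4, h5, h6⟩
    refine ⟨h4, h5, ?_⟩
    by_contra h7
    rw [not_lt] at h7
    apply h6
    have hN0 : (0 : ℝ) < N := by exact_mod_cast (by omega : 0 < N)
    have hXN : (X : ℝ) ≤ N := by exact_mod_cast h4.le
    have e1 : ∀ Y, Pool.Agent.Q331.E3.PIP.PP Y = PP Y := fun Y => rfl
    have h9 : c * ((PP (N / 2)).card : ℝ) ≤ c * ((PP X).card : ℝ) := by
      apply mul_le_mul_of_nonneg_left _ hc.le
      exact_mod_cast card_le_card (mono (by omega))
    rw [e1] at h7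
    refine h9.trans (h7.trans ?_)
    have e : {p : ℕ | p ∈ PP X ∧ Pool.Agent.Q331.E3.PIP.Represents ε X N p} =
        (((PP X).filter (fun p => Pool.Agent.Q331.E3.PIP.Represents ε X N p) : Finset ℕ) : Set ℕ) := by
      ext i
      rw [mem_coe, mem_filter]
      exact Iff.rfl
    rw [e, Set.ncard_coe_finset]
    apply Nat.cast_le.2
    apply card_le_card
    intro p hp
    rw [mem_filter] at hp ⊢
    obtain ⟨hp1, m, s, hm, hs, hpm, hm2, hs2, hs3⟩ := hp
    refine ⟨mono h4.le hp1, m, s, hm, hs, hpm, fun l hl hlm => (hm2 l hl hlm).trans_le ?_, hs2, fun q hq => ?_⟩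
    · exact Real.rpow_le_rpow hX0.le hXN hε.le
    · refine lt_of_le_of_lt ?_ (hs3 q hq)
      have h10 : (N : ℝ) ≤ 2 * X := by exact_mod_cast h5
      calc (N : ℝ) ^ (1 / 8 : ℝ) ≤ (2 * X : ℝ) ^ (1 / 8 : ℝ) := Real.rpow_le_rpow hN0.le h10 (by norm_num)
        _ = (2 : ℝ) ^ (1 / 8 : ℝ) * (X : ℝ) ^ (1 / 8 : ℝ) := Real.mul_rpow (by norm_num) hX0.le
        _ ≤ (X : ℝ) ^ (1 / 56 : ℝ) * (X : ℝ) ^ (1 / 8 : ℝ) := by
            apply mul_le_mul_of_nonneg_right _ (by positivity)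
            calc (2 : ℝ) ^ (1 / 8 : ℝ) = ((2 : ℝ) ^ (7 : ℝ)) ^ (1 / 56 : ℝ) := by
                  rw [← Real.rpow_mul (by norm_num)]
                  norm_num
              _ ≤ (X : ℝ) ^ (1 / 56 : ℝ) := by
                  apply Real.rpow_le_rpow (by positivity) _ (by norm_num)
                  have : (2 : ℝ) ^ (7 : ℝ) = 128 := by norm_num
                  linarith
        _ = (X : ℝ) ^ (1 / 7 : ℝ) := by
            rw [← Real.rpow_add hX0]
            norm_num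
  have hfin : {N : ℕ | X < N ∧ N ≤ 2 * X ∧
      (Set.ncard {p : ℕ | p ∈ Pool.Agent.Q331.E3.PIP.PP X ∧ Pool.Agent.Q331.E3.PIP.Represents ε X N p} : ℝ) <
        c * (Pool.Agent.Q331.E3.PIP.PP X).card}.Finite :=
    (Set.finite_Ioc X (2 * X)).subset fun N hN => ⟨hN.1, hN.2.1⟩
  exact le_trans (by exact_mod_cast Set.ncard_le_ncard hsub hfin) h1.2

open Classical in
/-- Let `ε > 0`. There is `c₀ > 0` with the following property. Let `K ≥ 0` be an integer and `0 < c < 1`. For all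
`Y ≥ Y₀` there is a set `E` of real numbers of measure at most `Y ^ (1 - c / 2)` such that for all real `y` with
`Y ≤ y ≤ 2 Y` which do not belong to `E`, for ALL `k` with `1 ≤ k ≤ Y ^ K` and for EVERY natural number `N` with
`|N - k y| ≤ Y ^ (1 - c)` the number of the primes `p ≤ N` with `π(p)` prime and `N = p + m s`, where all prime factors of
`m` are `< N ^ ε` and `s` has at most two prime factors, all `> N ^ (1 / 8)`, is at least the proportion `c₀` of the
number of all primes `p ≤ N / 2` with `π(p)` prime. -/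
theorem result (ε : ℝ) (hε : 0 < ε) : ∃ c₀ : ℝ, 0 < c₀ ∧ ∀ (K : ℕ) (c : ℝ), 0 < c → c < 1 →
    ∃ Y₀ : ℝ, 1 ≤ Y₀ ∧ ∀ Y : ℝ, Y₀ ≤ Y → ∃ E : Set ℝ, MeasurableSet E ∧ volume E ≤ ENNReal.ofReal (Y ^ (1 - c / 2)) ∧
      ∀ y : ℝ, Y ≤ y → y ≤ 2 * Y → y ∉ E → ∀ k : ℕ, 1 ≤ k → (k : ℝ) ≤ Y ^ K →
        ∀ N : ℕ, |(N : ℝ) - k * y| ≤ Y ^ (1 - c) → Good ε c₀ N := by
  obtain ⟨c₀, C, hc₀, hscale⟩ := scale ε hε
  refine ⟨c₀, hc₀, fun K c hc hc1 => ?_⟩
  obtain ⟨Y₀, hY₀, h⟩ := Pool.Agent.Q331.AllMult.all_mult {N : ℕ | ¬ Good ε c₀ N} (by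
    intro ε' hε'
    have tN : Tendsto (fun N : ℕ => (N : ℝ)) atTop atTop := tendsto_natCast_atTop_atTop
    have hlog : ∀ᶠ X : ℕ in atTop, Real.log X ≤ (X : ℝ) ^ ε' := by
      have h1 := tN.eventually ((isLittleO_log_rpow_atTop hε').bound one_pos)
      filter_upwards [h1, eventually_ge_atTop 1] with X h1 h2
      have hX1 : (1 : ℝ) ≤ X := by exact_mod_cast h2
      rw [Real.norm_of_nonneg (Real.log_nonneg hX1), Real.norm_of_nonneg (by positivity), one_mul] at h1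
      exact h1
    obtain ⟨X₀, hX₀⟩ := (hscale.and (hlog.and (eventually_ge_atTop 1))).exists_forall_of_atTop
    obtain ⟨C', hC'⟩ := Pool.Agent.Q331.Dyad.cum {N : ℕ | ¬ Good ε c₀ N} ε' hε' |C| X₀ (by
      intro j hj
      obtain ⟨h1, h2, h3⟩ := hX₀ (2 ^ j) (hj.trans (Nat.lt_two_pow_self).le)
      have hX1 : (1 : ℝ) ≤ ((2 ^ j : ℕ) : ℝ) := by exact_mod_cast h3
      have e : {N : ℕ | 2 ^ j < N ∧ N ≤ 2 * 2 ^ j ∧ ¬ Good ε c₀ N} =
          (((Ioc (2 ^ j) (2 * 2 ^ j)).filter (fun t => t ∈ {N : ℕ | ¬ Good ε c₀ N}) : Finset ℕ) : Set ℕ) := by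
        ext N
        rw [mem_coe, mem_filter, mem_Ioc]
        exact ⟨fun h => ⟨⟨h.1, h.2.1⟩, h.2.2⟩, fun h => ⟨h.1.1, h.1.2, h.2⟩⟩
      rw [e, Set.ncard_coe_finset] at h1
      refine le_trans (le_of_eq (by congr!)) (h1.trans ?_)
      calc C * Real.log ((2 ^ j : ℕ) : ℝ) ≤ |C| * Real.log ((2 ^ j : ℕ) : ℝ) :=
            mul_le_mul_of_nonneg_right (le_abs_self C) (Real.log_nonneg hX1)
        _ ≤ |C| * ((2 ^ j : ℕ) : ℝ) ^ ε' := mul_le_mul_of_nonneg_left h2 (abs_nonneg C)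
        _ = _ := by push_cast; rfl)
    exact ⟨C', fun X hX => hC' X hX⟩) K c hc hc1
  refine ⟨Y₀, hY₀, fun Y hY => ?_⟩
  obtain ⟨E, hE1, hE2, hE3⟩ := h Y hY
  exact ⟨E, hE1, hE2, fun y hy1 hy2 hyE k hk1 hk2 N hN => not_not.1 (hE3 y hy1 hy2 hyE k hk1 hk2 N hN).2⟩

end Pool.Agent.Results.MP_5d7b92_nt.EveryMultiple
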