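import Mathlib
import Pool.Agent.Q20.AS.Main

/-!
# The least prime-indexed summand: a lower bound

For every `C` there are infinitely many `n` (at least `X ^ (δ / 4)` in every interval `[y, y + X ^ δ]`, `y ≤ X ^ K`) such
that every prime `p < 2 n` with `π(p)` and `2 n - p` prime is larger than `C log n (log log n) ^ 2`. The multiples
`n, 2 n, ..., J n` have this property simultaneously. If `p, π(p), ..., π^l(p)` are all prime then the exponent `2` can be
replaced by `l + 1`; all Goldbach summands are larger than `C log n log log n`.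

For small `C` this follows by averaging; the point is that `C` is arbitrary. The proof uses the theorem on arbitrary
systems of `C log X` linear forms in short intervals from the team's files (`Pool.Agent.Q20.AS.forms`).
-/

set_option autoImplicit false

open Finset Filter

namespace Pool.Agent.Results.MP_5d7b92_nt.LeastAdmissiblePrime

/-- `p, π(p), π(π(p)), ..., π^l(p)` are all prime. For `l = 0` the number `p` is prime, for `l = 1` it is a
prime-indexed prime. -/
def Indexed (l p : ℕ) : Prop := ∀ i ≤ l, (Nat.primeCounting^[i] p).Prime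

open Classical in
/-- the `p ≤ x` with `p, π(p), ..., π^l(p)` all prime -/
noncomputable def PP (l x : ℕ) : Finset ℕ := (Icc 1 x).filter (fun p => Indexed l p)

lemma PP_mono (l : ℕ) {x y : ℕ} (h : x ≤ y) : PP l x ⊆ PP l y := by
  classical
  intro p hp
  unfold PP at hp ⊢
  rw [mem_filter, mem_Icc] at hp ⊢
  exact ⟨⟨hp.1.1, hp.1.2.trans h⟩, hp.2⟩

lemma PP_zero (x : ℕ) : (PP 0 x).card = Nat.primeCounting x := by
  classical
  rw [← Nat.primesLE_card_eq_primeCounting]
  congr 1
  unfold PP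
  ext q
  rw [Nat.mem_primesLE, mem_filter, mem_Icc]
  constructor
  · rintro ⟨⟨_, a⟩, b⟩
    exact ⟨a, b 0 le_rfl⟩
  · rintro ⟨a, b⟩
    refine ⟨⟨b.one_lt.le, a⟩, fun i hi => ?_⟩
    have : i = 0 := by omega
    subst this
    exact b

lemma count_inj {a b : ℕ} (ha : a.Prime) (hb : b.Prime) (h : Nat.primeCounting a = Nat.primeCounting b) : a = b := by
  have key : ∀ {a b : ℕ}, a.Prime → b.Prime → a < b → Nat.primeCounting a < Nat.primeCounting b := by
    intro a b _ hb hlt
    have h1 : Nat.primeCounting a ≤ Nat.primeCounting (b - 1) := Nat.monotone_primeCounting (by omega)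
    have h2 : Nat.primeCounting b = Nat.primeCounting (b - 1) + 1 := by
      have e1 : Nat.primeCounting b = Nat.count Nat.Prime (b + 1) := rfl
      have e2 : Nat.primeCounting (b - 1) = Nat.count Nat.Prime (b - 1 + 1) := rfl
      rw [e1, e2, Nat.count_succ, if_pos hb, Nat.sub_add_cancel hb.one_lt.le]
    omega
  rcases lt_trichotomy a b with h1 | h1 | h1
  · have := key ha hb h1
    omega
  · exact h1
  · have := key hb ha h1
    omega

lemma PP_succ (l x : ℕ) : (PP (l + 1) x).card ≤ (PP l (Nat.primeCounting x)).card := by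
  classical
  apply card_le_card_of_injOn (fun p => Nat.primeCounting p)
  · intro p hp
    rw [mem_coe] at hp ⊢
    unfold PP at hp ⊢
    rw [mem_filter, mem_Icc] at hp ⊢
    obtain ⟨⟨hp1, hp2⟩, hp3⟩ := hp
    refine ⟨⟨?_, Nat.monotone_primeCounting hp2⟩, fun i hi => ?_⟩
    · have := hp3 1 (by omega)
      exact this.one_lt.le
    · have := hp3 (i + 1) (by omega)
      rw [Function.iterate_succ_apply] at this
      exact this
  · intro a ha b hb hab
    rw [mem_coe] at ha hb
    unfold PP at ha hb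
    rw [mem_filter] at ha hb
    exact count_inj (ha.2 0 (Nat.zero_le _)) (hb.2 0 (Nat.zero_le _)) hab

/-- Chebyshev -/
lemma cheb : ∃ y₀ : ℕ, ∀ y : ℕ, y₀ ≤ y → (Nat.primeCounting y : ℝ) ≤ 2 * y / Real.log y := by
  have h4 : Real.log 4 < 1.4 := by
    have : Real.log 4 = 2 * Real.log 2 := by
      rw [show (4 : ℝ) = 2 ^ 2 by norm_num, Real.log_pow]; norm_num
    rw [this]
    have := Real.log_two_lt_d9
    linarith
  have h := Chebyshev.eventually_primeCounting_le (ε := 0.6) (by norm_num)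
  have h2 := (tendsto_natCast_atTop_atTop (R := ℝ)).eventually h
  obtain ⟨N, hN⟩ := eventually_atTop.1 h2
  refine ⟨max N 2, fun y hy => ?_⟩
  have h3 := hN y ((le_max_left _ _).trans hy)
  rw [Nat.floor_natCast] at h3
  have hy2 : (2 : ℝ) ≤ y := by exact_mod_cast (le_max_right _ _).trans hy
  have hl : 0 < Real.log y := Real.log_pos (by linarith)
  refine h3.trans ?_
  apply div_le_div_of_nonneg_right _ hl.le
  nlinarith

/-- at most `O(y / log ^ (l + 1) y)` of the `p ≤ y` have `p, π(p), ..., π^l(p)` all prime -/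
lemma PP_up (l : ℕ) : ∃ c : ℝ, 0 < c ∧ ∃ y₀ : ℕ, ∀ y : ℕ, y₀ ≤ y → ((PP l y).card : ℝ) ≤ c * y / Real.log y ^ (l + 1) := by
  induction l with
  | zero =>
    obtain ⟨y₀, h⟩ := cheb
    refine ⟨2, by norm_num, y₀, fun y hy => ?_⟩
    rw [PP_zero, zero_add, pow_one]
    exact h y hy
  | succ l ih =>
    obtain ⟨c, hc, y₁, h1⟩ := ih
    obtain ⟨y₀, h0⟩ := cheb
    -- `M = ⌊2 y / log y⌋`
    have hev : ∀ᶠ y : ℕ in atTop, y₀ ≤ y ∧ (2 : ℝ) ≤ Real.log y ∧ (y₁ : ℝ) + 1 ≤ (y : ℝ) ^ (1 / 2 : ℝ) ∧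
        Real.log y ≤ (y : ℝ) ^ (1 / 2 : ℝ) := by
      have hlog : Tendsto (fun y : ℕ => Real.log y) atTop atTop :=
        Real.tendsto_log_atTop.comp tendsto_natCast_atTop_atTop
      have hpow : Tendsto (fun y : ℕ => (y : ℝ) ^ (1 / 2 : ℝ)) atTop atTop :=
        (tendsto_rpow_atTop (by norm_num)).comp tendsto_natCast_atTop_atTop
      have hlo : ∀ᶠ y : ℕ in atTop, Real.log y ≤ (y : ℝ) ^ (1 / 2 : ℝ) := by
        have := (isLittleO_log_rpow_atTop (r := 1 / 2) (by norm_num)).bound one_pos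
        have h2 := (tendsto_natCast_atTop_atTop (R := ℝ)).eventually this
        filter_upwards [h2, hlog.eventually_ge_atTop 0] with y h3 h4
        rw [Real.norm_of_nonneg h4, one_mul, Real.norm_of_nonneg (by positivity)] at h3
        exact h3
      filter_upwards [eventually_ge_atTop y₀, hlog.eventually_ge_atTop 2, hpow.eventually_ge_atTop ((y₁ : ℝ) + 1), hlo]
        with y a1 a2 a3 a4
      exact ⟨a1, a2, a3, a4⟩
    obtain ⟨y₂, hy₂⟩ := eventually_atTop.1 hev
    refine ⟨c * 2 * 2 ^ (l + 1), by positivity, y₂, fun y hy => ?_⟩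
    obtain ⟨a1, a2, a3, a4⟩ := hy₂ y hy
    have hL0 : 0 < Real.log y := by linarith
    have hy0 : (0 : ℝ) < y := by
      rcases Nat.eq_zero_or_pos y with h | h
      · subst h
        simp at hL0
      · exact_mod_cast h
    set M : ℕ := ⌊2 * (y : ℝ) / Real.log y⌋₊ with hM
    have hMle : (M : ℝ) ≤ 2 * y / Real.log y := Nat.floor_le (by positivity)
    have hMge : 2 * (y : ℝ) / Real.log y - 1 < M := Nat.sub_one_lt_floor _
    have hpi : Nat.primeCounting y ≤ M := Nat.le_floor (h0 y a1)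
    have hsq : (y : ℝ) ^ (1 / 2 : ℝ) * (y : ℝ) ^ (1 / 2 : ℝ) = y := by
      rw [← Real.rpow_add hy0]
      norm_num
    set s : ℝ := (y : ℝ) ^ (1 / 2 : ℝ) with hs
    have hs0 : 0 < s := by positivity
    have hMs : s ≤ M := by
      have h5 : 2 * s ≤ 2 * y / Real.log y := by
        rw [le_div_iff₀ hL0]
        nlinarith
      have h6 : 1 ≤ s := by
        have : (0 : ℝ) ≤ y₁ := Nat.cast_nonneg _
        linarith
      linarith
    have hM1 : y₁ ≤ M := by
      have : (y₁ : ℝ) ≤ M := by linarith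
      exact_mod_cast this
    have hlogM : Real.log y / 2 ≤ Real.log M := by
      have h7 : Real.log s = Real.log y / 2 := by
        rw [hs, Real.log_rpow hy0]
        ring
      rw [← h7]
      exact Real.log_le_log hs0 hMs
    have k1 : ((PP (l + 1) y).card : ℝ) ≤ (PP l M).card := by
      exact_mod_cast (PP_succ l y).trans (card_le_card (PP_mono l hpi))
    have k2 := h1 M hM1
    refine k1.trans (k2.trans ?_)
    calc c * (M : ℝ) / Real.log M ^ (l + 1) ≤ c * (M : ℝ) / (Real.log y / 2) ^ (l + 1) := by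
          apply div_le_div_of_nonneg_left (by positivity) (by positivity)
          exact pow_le_pow_left₀ (by positivity) hlogM _
      _ ≤ c * (2 * y / Real.log y) / (Real.log y / 2) ^ (l + 1) := by
          apply div_le_div_of_nonneg_right _ (by positivity)
          exact mul_le_mul_of_nonneg_left hMle hc.le
      _ = c * 2 * 2 ^ (l + 1) * y / Real.log y ^ (l + 1 + 1) := by
          rw [div_pow, pow_succ _ (l + 1)]
          field_simp

/-- the bound for the summands at level `l` -/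
noncomputable def B (C : ℝ) (l X : ℕ) : ℝ := C * Real.log X * Real.log (Real.log X) ^ (l + 1)

/-- there are at most `O(log X)` of the `p ≤ B C l X` with `p, π(p), ..., π^l(p)` all prime -/
lemma PP_B (C : ℝ) (l : ℕ) : ∃ c : ℝ, 0 < c ∧ ∃ X₀ : ℕ, ∀ X : ℕ, X₀ ≤ X →
    ((PP l ⌊B C l X⌋₊).card : ℝ) ≤ c * Real.log X := by
  obtain ⟨c, hc, y₀, h⟩ := PP_up l
  set C' : ℝ := max C 1 with hC'
  have hC1 : 1 ≤ C' := le_max_right _ _
  have hev : ∀ᶠ X : ℕ in atTop, (1 : ℝ) ≤ Real.log (Real.log X) ∧ (y₀ : ℝ) + 2 ≤ Real.log X ∧ (4 : ℝ) ≤ Real.log X := by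
    have hlog : Tendsto (fun y : ℕ => Real.log y) atTop atTop :=
      Real.tendsto_log_atTop.comp tendsto_natCast_atTop_atTop
    have hll : Tendsto (fun y : ℕ => Real.log (Real.log y)) atTop atTop := Real.tendsto_log_atTop.comp hlog
    filter_upwards [hll.eventually_ge_atTop 1, hlog.eventually_ge_atTop ((y₀ : ℝ) + 2), hlog.eventually_ge_atTop 4]
      with X a1 a2 a3
    exact ⟨a1, a2, a3⟩
  obtain ⟨X₁, hX₁⟩ := eventually_atTop.1 hev
  refine ⟨c * C' * 2 ^ (l + 1), by positivity, X₁, fun X hX => ?_⟩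
  obtain ⟨a1, a2, a3⟩ := hX₁ X hX
  set L := Real.log X with hL
  set LL := Real.log L with hLL
  have hLL1 : 1 ≤ LL ^ (l + 1) := one_le_pow₀ a1
  have hL0 : 0 < L := by linarith
  set y : ℕ := ⌊C' * L * LL ^ (l + 1)⌋₊ with hy
  have hBle : ⌊B C l X⌋₊ ≤ y := by
    apply Nat.floor_le_floor
    unfold B
    rw [← hL, ← hLL]
    apply mul_le_mul_of_nonneg_right _ (by positivity)
    exact mul_le_mul_of_nonneg_right (le_max_left _ _) hL0.le
  have hCL : L ≤ C' * L * LL ^ (l + 1) := by
    calc L = 1 * L * 1 := by ring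
      _ ≤ C' * L * LL ^ (l + 1) := by gcongr
  have hyge : L - 1 < y := by
    have := Nat.sub_one_lt_floor (C' * L * LL ^ (l + 1))
    rw [← hy] at this
    linarith
  have hyle : (y : ℝ) ≤ C' * L * LL ^ (l + 1) := Nat.floor_le (by positivity)
  have hy0 : y₀ ≤ y := by
    have : (y₀ : ℝ) ≤ y := by linarith
    exact_mod_cast this
  have hylog : LL / 2 ≤ Real.log y := by
    have h1 : √L ≤ y := by
      have h2 : √L * √L = L := Real.mul_self_sqrt hL0.le
      have h3 : 2 ≤ √L := by
        apply Real.le_sqrt_of_sq_le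
        linarith
      nlinarith
    have h4 : Real.log (√L) = LL / 2 := by
      rw [Real.log_sqrt hL0.le]
    rw [← h4]
    exact Real.log_le_log (Real.sqrt_pos.2 hL0) h1
  have k1 : ((PP l ⌊B C l X⌋₊).card : ℝ) ≤ (PP l y).card := by
    exact_mod_cast card_le_card (PP_mono l hBle)
  refine k1.trans ((h y hy0).trans ?_)
  have hLLpos : 0 < LL := by linarith
  calc c * (y : ℝ) / Real.log y ^ (l + 1) ≤ c * (y : ℝ) / (LL / 2) ^ (l + 1) := by
        apply div_le_div_of_nonneg_left (by positivity) (by positivity)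
        exact pow_le_pow_left₀ (by positivity) hylog _
    _ ≤ c * (C' * L * LL ^ (l + 1)) / (LL / 2) ^ (l + 1) := by
        apply div_le_div_of_nonneg_right _ (by positivity)
        exact mul_le_mul_of_nonneg_left hyle hc.le
    _ = c * C' * 2 ^ (l + 1) * L := by
        rw [div_pow]
        field_simp

/-- All summands are large: if `p + q = 2 n` with primes `p`, `q`, then `p > C log X log log X`, and if
`p, π(p), ..., π^l(p)` are all prime, `l ≤ j`, then `p > C log X (log log X) ^ (l + 1)`. -/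
def AllLarge (C : ℝ) (j X n : ℕ) : Prop :=
  ∀ p q : ℕ, q.Prime → p + q = 2 * n → ∀ l ≤ j, Indexed l p → C * Real.log X * Real.log (Real.log X) ^ (l + 1) < p

lemma main (C δ : ℝ) (j J K : ℕ) (hδ : 0 < δ) : ∃ X₀ : ℕ, ∀ X : ℕ, X₀ ≤ X → ∀ y : ℕ, y ≤ X ^ K →
    ∀ E : Finset ℕ, (E.card : ℝ) ≤ (X : ℝ) ^ (δ / 4) →
      ∃ n : ℕ, y ≤ n ∧ (n : ℝ) ≤ y + (X : ℝ) ^ δ ∧ n ∉ E ∧ ∀ i : ℕ, 1 ≤ i → i ≤ J → AllLarge C j X (i * n) := by
  classical
  have hall : ∃ c : ℝ, 0 < c ∧ ∃ X₀ : ℕ, ∀ X : ℕ, X₀ ≤ X →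
      (((range (j + 1)).biUnion (fun l => PP l ⌊B C l X⌋₊)).card : ℝ) ≤ c * Real.log X := by
    choose c hc X₀ h using fun l => PP_B C l
    refine ⟨∑ l ∈ range (j + 1), c l, ?_, (range (j + 1)).sup X₀, fun X hX => ?_⟩
    · exact sum_pos (fun l _ => hc l) ⟨0, by simp⟩
    · have h1 : ((range (j + 1)).biUnion (fun l => PP l ⌊B C l X⌋₊)).card ≤
          ∑ l ∈ range (j + 1), (PP l ⌊B C l X⌋₊).card := card_biUnion_le
      rw [sum_mul]
      calc (((range (j + 1)).biUnion (fun l => PP l ⌊B C l X⌋₊)).card : ℝ)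
          ≤ ((∑ l ∈ range (j + 1), (PP l ⌊B C l X⌋₊).card : ℕ) : ℝ) := by exact_mod_cast h1
        _ = ∑ l ∈ range (j + 1), ((PP l ⌊B C l X⌋₊).card : ℝ) := by push_cast; rfl
        _ ≤ ∑ l ∈ range (j + 1), c l * Real.log X := by
            apply sum_le_sum
            intro l hl
            exact h l X ((le_sup (f := X₀) hl).trans hX)
  obtain ⟨c, hc, X₁, hA⟩ := hall
  set D : ℕ := ⌈δ⌉₊ with hD
  obtain ⟨X₂, h2⟩ := Pool.Agent.Q20.AS.forms ((J : ℝ) * c) δ (2 * J + 1) (K + D + 2) hδ (by omega)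
  have hev : ∀ᶠ X : ℕ in atTop, ∀ l ∈ range (j + 1), B C l X ≤ X := by
    rw [eventually_all_finset]
    intro l _
    have hlog : Tendsto (fun y : ℕ => Real.log y) atTop atTop :=
      Real.tendsto_log_atTop.comp tendsto_natCast_atTop_atTop
    have h3 := (isLittleO_log_rpow_rpow_atTop ((l : ℝ) + 2) (s := 1) one_pos).bound (c := 1 / (|C| + 1)) (by positivity)
    have h4 := (tendsto_natCast_atTop_atTop (R := ℝ)).eventually h3
    filter_upwards [h4, hlog.eventually_ge_atTop 1, eventually_ge_atTop 1] with X h5 h6 h7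
    have hX0 : (1 : ℝ) ≤ X := by exact_mod_cast h7
    rw [Real.rpow_one, Real.norm_of_nonneg (by positivity), Real.norm_of_nonneg (by positivity)] at h5
    have h8 : Real.log (Real.log X) ≤ Real.log X := by
      have := Real.log_le_sub_one_of_pos (show 0 < Real.log X by linarith)
      linarith
    have h9 : 0 ≤ Real.log (Real.log X) := Real.log_nonneg h6
    have h10 : Real.log X * Real.log (Real.log X) ^ (l + 1) ≤ Real.log X ^ ((l : ℝ) + 2) := by
      rw [show (l : ℝ) + 2 = ((l + 2 : ℕ) : ℝ) by push_cast; ring, Real.rpow_natCast]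
      calc Real.log X * Real.log (Real.log X) ^ (l + 1) ≤ Real.log X * Real.log X ^ (l + 1) := by
            apply mul_le_mul_of_nonneg_left _ (by linarith)
            exact pow_le_pow_left₀ h9 h8 _
        _ = Real.log X ^ (l + 2) := by ring
    have h11 : 0 ≤ Real.log X * Real.log (Real.log X) ^ (l + 1) := by positivity
    unfold B
    calc C * Real.log X * Real.log (Real.log X) ^ (l + 1) = C * (Real.log X * Real.log (Real.log X) ^ (l + 1)) := by ring
      _ ≤ (|C| + 1) * (Real.log X * Real.log (Real.log X) ^ (l + 1)) := by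
          apply mul_le_mul_of_nonneg_right _ h11
          have := le_abs_self C
          linarith
      _ ≤ (|C| + 1) * Real.log X ^ ((l : ℝ) + 2) := mul_le_mul_of_nonneg_left h10 (by positivity)
      _ ≤ (|C| + 1) * (1 / (|C| + 1) * X) := mul_le_mul_of_nonneg_left h5 (by positivity)
      _ = X := by field_simp
  obtain ⟨X₃, hX₃⟩ := eventually_atTop.1 hev
  refine ⟨X₁ + X₂ + X₃ + 2 * J + 3, fun X hX y hy E hE => ?_⟩
  have hX1 : 3 ≤ X := by omega
  have hXr : (1 : ℝ) ≤ X := by exact_mod_cast (by omega : 1 ≤ X)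
  set A : Finset ℕ := (range (j + 1)).biUnion (fun l => PP l ⌊B C l X⌋₊) with hAdef
  have hAX : ∀ a ∈ A, a ≤ X := by
    intro a ha
    rw [hAdef, mem_biUnion] at ha
    obtain ⟨l, hl, ha⟩ := ha
    unfold PP at ha
    rw [mem_filter, mem_Icc] at ha
    refine ha.1.2.trans ?_
    have := hX₃ X (by omega) l hl
    exact Nat.floor_le_of_le this
  set L : Finset (ℕ × ℤ) := (Icc 1 J ×ˢ A).image (fun t : ℕ × ℕ => (2 * t.1, -(t.2 : ℤ))) with hL
  have hLc : (L.card : ℝ) ≤ (J : ℝ) * c * Real.log X := by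
    have e1 : L.card ≤ J * A.card := by
      refine card_image_le.trans ?_
      rw [card_product, Nat.card_Icc, Nat.add_sub_cancel]
    have e2 : (L.card : ℝ) ≤ J * A.card := by exact_mod_cast e1
    have e3 : (J : ℝ) * A.card ≤ J * (c * Real.log X) :=
      mul_le_mul_of_nonneg_left (hA X (by omega)) (Nat.cast_nonneg J)
    linarith
  have hXD : X ≤ X ^ (K + D + 2) := by
    calc X = X ^ 1 := (pow_one X).symm
      _ ≤ X ^ (K + D + 2) := Nat.pow_le_pow_right (by omega) (by omega)
  have hLP : ∀ l ∈ L, 1 ≤ l.1 ∧ (∀ p : ℕ, p.Prime → p ∣ l.1 → p ≤ 2 * J + 1) ∧ l.1 ≤ X ^ (K + D + 2) ∧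
      |l.2| ≤ (X : ℤ) ^ (K + D + 2) := by
    intro l hl
    rw [hL, mem_image] at hl
    obtain ⟨⟨i, a⟩, hja, rfl⟩ := hl
    rw [mem_product, mem_Icc] at hja
    simp only at hja
    refine ⟨by omega, ?_, ?_, ?_⟩
    rotate_left
    · show 2 * i ≤ X ^ (K + D + 2)
      omega
    rotate_left
    · intro p _ hpd
      have := Nat.le_of_dvd (by omega) hpd
      simp only at this
      omega
    · simp only [abs_neg, Nat.abs_cast]
      exact_mod_cast (hAX a hja.2).trans hXD
  have hy' : y ≤ X ^ (K + D + 2) := hy.trans (Nat.pow_le_pow_right (by omega) (by omega))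
  obtain ⟨n, hn1, hn2, -, hnE, hn3⟩ := h2 X (by omega) L hLP hLc y 1 0 hy' le_rfl (by omega) E hE
  refine ⟨n, hn1, hn2, hnE, ?_⟩
  intro i hi1 hiJ p q hq hpq l hl hp
  by_contra hcon
  push Not at hcon
  have hpA : p ∈ A := by
    rw [hAdef, mem_biUnion]
    refine ⟨l, mem_range.2 (by omega), ?_⟩
    unfold PP
    rw [mem_filter, mem_Icc]
    refine ⟨⟨(hp 0 (Nat.zero_le _)).one_lt.le, Nat.le_floor ?_⟩, hp⟩
    exact hcon
  have hmem : (2 * i, -(p : ℤ)) ∈ L := by
    rw [hL, mem_image]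
    exact ⟨(i, p), mem_product.2 ⟨mem_Icc.2 ⟨hi1, hiJ⟩, hpA⟩, rfl⟩
  obtain ⟨r, hr, -, hrd, hrlt⟩ := hn3 _ hmem
  have e5 : ((2 * i : ℕ) : ℤ) * (n : ℤ) + -(p : ℤ) = (q : ℤ) := by
    have : ((p + q : ℕ) : ℤ) = ((2 * (i * n) : ℕ) : ℤ) := by rw [hpq]
    push_cast at this ⊢
    linarith
  simp only at hrd hrlt
  rw [e5] at hrd hrlt
  rw [Nat.abs_cast] at hrlt
  have e6 : r ∣ q := by exact_mod_cast hrd
  have e7 : r < q := by exact_mod_cast hrlt
  rcases (Nat.dvd_prime hq).1 e6 with h | h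
  · exact hr.one_lt.ne' h
  · omega

open Classical in
/-- **Lower bounds for the least prime-indexed summand.**

(1) Let `C`, `δ > 0`, `j`, `J`, `K` be fixed. For all `X ≥ X₀` and `y ≤ X ^ K` at least `X ^ (δ / 4)` integers `n` with
`y ≤ n ≤ y + X ^ δ` have the property that for all `m = n, 2 n, ..., J n` and all primes `q ≤ 2 m`: if `p = 2 m - q`
is such that `p, π(p), ..., π^l(p)` are all prime, `l ≤ j`, then `p > C log X (log log X) ^ (l + 1)`.

(2) In particular, for all `C` and `J` there are infinitely many `n` such that for all `m = n, 2 n, ..., J n` every prime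
`p < 2 m` for which `π(p)` and `2 m - p` are prime is larger than `C log m (log log m) ^ 2`. -/
theorem result :
    (∀ (C δ : ℝ) (j J K : ℕ), 0 < δ → ∃ X₀ : ℕ, ∀ X : ℕ, X₀ ≤ X → ∀ y : ℕ, y ≤ X ^ K →
      (X : ℝ) ^ (δ / 4) < (((Icc y (y + ⌊(X : ℝ) ^ δ⌋₊)).filter (fun n : ℕ =>
        ∀ i : ℕ, 1 ≤ i → i ≤ J → AllLarge C j X (i * n))).card : ℝ)) ∧
    (∀ (C : ℝ) (J : ℕ), {n : ℕ | ∀ i : ℕ, 1 ≤ i → i ≤ J → ∀ p : ℕ, p < 2 * (i * n) → p.Prime →
      (Nat.primeCounting p).Prime → (2 * (i * n) - p).Prime →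
        C * Real.log (i * n : ℕ) * Real.log (Real.log (i * n : ℕ)) ^ 2 < p}.Infinite) := by
  constructor
  · intro C δ j J K hδ
    obtain ⟨X₀, h⟩ := main C δ j J K hδ
    refine ⟨X₀, fun X hX y hy => ?_⟩
    by_contra hcon
    push Not at hcon
    obtain ⟨n, h1, h2, h3, h4⟩ := h X hX y hy _ hcon
    apply h3
    rw [mem_filter, mem_Icc]
    refine ⟨⟨h1, ?_⟩, h4⟩
    have : n - y ≤ ⌊(X : ℝ) ^ δ⌋₊ := by
      apply Nat.le_floor
      rw [Nat.cast_sub h1]
      linarith
    omega
  · intro C J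
    obtain ⟨X₀, h⟩ := main (max C 0 * 8) 1 1 J 1 one_pos
    rw [Set.infinite_iff_exists_gt]
    intro M
    set X : ℕ := X₀ + M + 4 * J + 16 with hX
    obtain ⟨n, h1, h2, -, h4⟩ := h X (by omega) X (by rw [pow_one]) ∅ (by
      rw [card_empty, Nat.cast_zero]; positivity)
    rw [Real.rpow_one] at h2
    have h2' : n ≤ X + X := by exact_mod_cast h2
    refine ⟨n, ?_, by omega⟩
    intro i hi1 hiJ p hp hpp hpi hq
    have h5 := h4 i hi1 hiJ p (2 * (i * n) - p) hq (by omega) 1 le_rfl (by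
      intro s hs
      rcases Nat.eq_zero_or_pos s with h0 | h0
      · subst h0
        exact hpp
      · have : s = 1 := by omega
        subst this
        exact hpi)
    refine lt_of_le_of_lt ?_ h5
    -- `i n ≤ X ^ 2`
    have hin : i * n ≤ X ^ 2 := by
      calc i * n ≤ J * (X + X) := Nat.mul_le_mul hiJ h2'
        _ = (2 * J) * X := by ring
        _ ≤ X * X := Nat.mul_le_mul_right _ (by omega)
        _ = X ^ 2 := by ring
    have hin1 : 16 ≤ i * n := by
      calc 16 ≤ 1 * n := by omega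
        _ ≤ i * n := Nat.mul_le_mul_right _ hi1
    have hXr : (16 : ℝ) ≤ X := by exact_mod_cast (by omega : 16 ≤ X)
    have hinr : (16 : ℝ) ≤ ((i * n : ℕ) : ℝ) := by exact_mod_cast hin1
    have hinr2 : ((i * n : ℕ) : ℝ) ≤ (X : ℝ) ^ 2 := by exact_mod_cast hin
    set m : ℝ := ((i * n : ℕ) : ℝ) with hm
    have hlog16 : 2 ≤ Real.log 16 := by
      rw [show (16 : ℝ) = 2 ^ 4 by norm_num, Real.log_pow]
      have := Real.log_two_gt_d9
      norm_num
      linarith
    have hlm2 : 2 ≤ Real.log m := hlog16.trans (Real.log_le_log (by norm_num) hinr)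
    have hlX2 : 2 ≤ Real.log X := hlog16.trans (Real.log_le_log (by norm_num) hXr)
    have hlm : Real.log m ≤ 2 * Real.log X := by
      have := Real.log_le_log (by linarith) hinr2
      rw [Real.log_pow] at this
      push_cast at this
      exact this
    have hllm0 : 0 ≤ Real.log (Real.log m) := Real.log_nonneg (by linarith)
    have hllm : Real.log (Real.log m) ≤ 2 * Real.log (Real.log X) := by
      have e1 : Real.log (Real.log m) ≤ Real.log (2 * Real.log X) := Real.log_le_log (by linarith) hlm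
      rw [Real.log_mul (by norm_num) (by linarith)] at e1
      have e2 : Real.log 2 ≤ Real.log (Real.log X) := Real.log_le_log (by norm_num) hlX2
      linarith
    have hllX : 0 ≤ Real.log (Real.log X) := Real.log_nonneg (by linarith)
    calc C * Real.log m * Real.log (Real.log m) ^ 2 ≤ max C 0 * Real.log m * Real.log (Real.log m) ^ 2 := by
          apply mul_le_mul_of_nonneg_right _ (by positivity)
          exact mul_le_mul_of_nonneg_right (le_max_left _ _) (by linarith)
      _ ≤ max C 0 * (2 * Real.log X) * (2 * Real.log (Real.log X)) ^ 2 := by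
          have h0 : 0 ≤ max C 0 := le_max_right _ _
          apply mul_le_mul (mul_le_mul_of_nonneg_left hlm h0) (pow_le_pow_left₀ hllm0 hllm 2) (by positivity)
          positivity
      _ = max C 0 * 8 * Real.log X * Real.log (Real.log X) ^ (1 + 1) := by ring

end Pool.Agent.Results.MP_5d7b92_nt.LeastAdmissiblePrime
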