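import Pool.Agent.Q234.Idx

/-!
# All `N` but `O(log X)` are sums of a prime-indexed prime and an almost prime

Let `ε > 0`. For all large `X` and all integers `N` in `(X, 2 X]`, with at most `C log X` exceptions, a positive proportion
of all the prime-indexed primes `p ≤ X` (`p` and `π(p)` prime) is such that `N - p = m s`, where all prime factors of `m` are
`< X ^ ε` and `s` has at most two prime factors, which are `> X ^ (1 / 7)`.

More generally the index may be restricted to an ARBITRARY set `I` of at least `X ^ (1 - η)` integers: for all integers `N` in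
`(X, 2 X]` with at most `C X / (|I| log X)` exceptions at least `c |I|` of the `i` in `I` satisfy `N - p_i = m s` (the number of
the exceptions is bounded if `I` contains a positive proportion of all indices).

Proof: the theorem on sparse sets of primes of the starting library (`Pool.Agent.W23.SG.sparse_sets`) and the lower bound for
the number of the prime-indexed primes.
-/

set_option autoImplicit false

open Finset Filter Topology

namespace Pool.Agent.Results.MP_5d7b92_nt.PrimeIndexedPlusAlmostPrime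

/-- the `i`-th prime, for `i ≥ 1` -/
noncomputable def pr (i : ℕ) : ℕ := Nat.nth Nat.Prime (i - 1)

open Classical in
/-- the primes `p ≤ X` with `π(p)` prime -/
noncomputable def PP (X : ℕ) : Finset ℕ := (Icc 1 X).filter (fun p => p.Prime ∧ (Nat.primeCounting p).Prime)

/-- `N = p + m s`, where all prime factors of `m` are `< X ^ ε` and `s` has at most two prime factors (counted with
multiplicity), all of them `> X ^ (1 / 7)` -/
def Represents (ε : ℝ) (X N p : ℕ) : Prop :=
  ∃ m s : ℕ, 0 < m ∧ 0 < s ∧ p + m * s = N ∧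
    (∀ l : ℕ, l.Prime → l ∣ m → (l : ℝ) < (X : ℝ) ^ ε) ∧
    s.primeFactorsList.length ≤ 2 ∧ ∀ q ∈ s.primeFactors, (X : ℝ) ^ (1 / 7 : ℝ) < q

lemma pr_inj {I : Finset ℕ} (hI : ∀ i ∈ I, 1 ≤ i) : Set.InjOn pr (I : Set ℕ) := by
  intro x hx y hy h
  unfold pr at h
  have h1 := (Nat.nth_strictMono Nat.infinite_setOf_prime).injective h
  have h2 := hI x (mem_coe.1 hx)
  have h3 := hI y (mem_coe.1 hy)
  omega

/-- **Sums of a prime-indexed prime and an almost prime.** For every `ε > 0` there are `c, C, η > 0` such that: (1) for all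
`X ≥ 2` and EVERY set `I` of positive integers `i` with `p_i ≤ X` and `|I| ≥ X ^ (1 - η)`, for all `N` in `(X, 2 X]` with at
most `C X / (|I| log X)` exceptions, `N = p_i + m s` as above for at least `c |I|` elements `i` of `I`; (2) for all large `X`
there are at least `c X / log ^ 2 X` primes `p ≤ X` with `π(p)` prime, and for all `N` in `(X, 2 X]` with at most `C log X`
exceptions at least the proportion `c` of them satisfies `N = p + m s` as above. -/
theorem result (ε : ℝ) (hε : 0 < ε) : ∃ c C η : ℝ, 0 < c ∧ 0 < C ∧ 0 < η ∧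
    (∀ X : ℕ, 2 ≤ X → ∀ I : Finset ℕ, (∀ i ∈ I, 1 ≤ i ∧ pr i ≤ X) → (X : ℝ) ^ (1 - η) ≤ I.card →
      (Set.ncard {N : ℕ | X < N ∧ N ≤ 2 * X ∧
        (Set.ncard {i : ℕ | i ∈ I ∧ Represents ε X N (pr i)} : ℝ) < c * I.card} : ℝ) ≤
        C * (X / (I.card * Real.log X))) ∧
    ∀ᶠ X : ℕ in atTop, c * (X / Real.log X ^ 2) ≤ (PP X).card ∧
      (Set.ncard {N : ℕ | X < N ∧ N ≤ 2 * X ∧
        (Set.ncard {p : ℕ | p ∈ PP X ∧ Represents ε X N p} : ℝ) < c * (PP X).card} : ℝ) ≤ C * Real.log X := by
  classical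
  obtain ⟨c, C, η, hc, hC, hη, h⟩ := Pool.Agent.Q234.Idx.sets ε hε
  obtain ⟨K, hK, hmany⟩ := Pool.Agent.Q234.Idx.many η hη
  have key : ∀ (c' : ℝ), c' ≤ c → ∀ (P : ℕ → ℕ) (X : ℕ) (I : Finset ℕ), (Set.ncard {N : ℕ | X < N ∧ N ≤ 2 * X ∧
      (Set.ncard {i : ℕ | i ∈ I ∧ Represents ε X N (P i)} : ℝ) < c' * I.card} : ℝ) ≤
      (Pool.Agent.Q234.Idx.exceptional ε c P I X).card := by
    intro c' hc' P X I
    have hsub : {N : ℕ | X < N ∧ N ≤ 2 * X ∧
        (Set.ncard {i : ℕ | i ∈ I ∧ Represents ε X N (P i)} : ℝ) < c' * I.card} ⊆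
        (Pool.Agent.Q234.Idx.exceptional ε c P I X : Set ℕ) := by
      rintro N ⟨h1, h2, h3⟩
      rw [mem_coe]
      unfold Pool.Agent.Q234.Idx.exceptional
      rw [mem_filter, mem_Ioc]
      refine ⟨⟨h1, h2⟩, ?_⟩
      have e : {i : ℕ | i ∈ I ∧ Represents ε X N (P i)} =
          ((I.filter (fun x => Pool.Agent.Q234.Idx.Represents ε X N (P x)) : Finset ℕ) : Set ℕ) := by
        ext i
        rw [mem_coe, mem_filter]
        exact Iff.rfl
      rw [e, Set.ncard_coe_finset] at h3
      exact h3.trans_le (mul_le_mul_of_nonneg_right hc' (Nat.cast_nonneg _))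
    have := Set.ncard_le_ncard hsub (finite_toSet _)
    rw [Set.ncard_coe_finset] at this
    exact_mod_cast this
  have hK0 : 0 < K := by linarith
  refine ⟨min c (1 / K ^ 2), max C (C * K ^ 2), η, lt_min hc (by positivity), lt_max_of_lt_left hC, hη, ?_, ?_⟩
  · intro X hX I hI hcard
    refine (key _ (min_le_left _ _) pr X I).trans ((h pr X hX I (fun i hi => ⟨Nat.prime_nth_prime _, (hI i hi).2⟩)
      (pr_inj fun i hi => (hI i hi).1) hcard).trans ?_)
    have hl : 0 ≤ Real.log (X : ℝ) := Real.log_natCast_nonneg X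
    exact mul_le_mul_of_nonneg_right (le_max_left _ _) (by positivity)
  · have tN : Tendsto (fun N : ℕ => (N : ℝ)) atTop atTop := tendsto_natCast_atTop_atTop
    have tL : Tendsto (fun N : ℕ => Real.log (N : ℝ)) atTop atTop := Real.tendsto_log_atTop.comp tN
    obtain ⟨η₁, hη₁⟩ : ∃ η₁, η₁ = min η 1 / 4 := ⟨_, rfl⟩
    have hη10 : 0 < η₁ := by
      rw [hη₁]
      have : 0 < min η 1 := lt_min hη one_pos
      positivity
    rw [← hη₁] at hmany
    have hev : ∀ᶠ L : ℝ in atTop, 1 ≤ L ∧ 2 * Real.log L ≤ η₁ * L := by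
      have h1 := Real.isLittleO_log_id_atTop.bound (show (0 : ℝ) < η₁ / 2 by positivity)
      filter_upwards [h1, eventually_ge_atTop 1] with L h1 h2
      rw [Real.norm_of_nonneg (Real.log_nonneg h2)] at h1
      simp only [id] at h1
      rw [Real.norm_of_nonneg (by linarith)] at h1
      exact ⟨h2, by linarith⟩
    filter_upwards [hmany, tL.eventually hev, eventually_ge_atTop 2] with X h1 h2 hX
    obtain ⟨h2, h3⟩ := h2
    obtain ⟨S, hS1, hS2, hS3, hS4⟩ := h1 1 (by norm_num; exact h3)
    have hX0 : (0 : ℝ) < X := by exact_mod_cast (by omega : 0 < X)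
    have hSP : S ⊆ PP X := by
      intro p hp
      unfold PP
      rw [mem_filter]
      exact ⟨hS1 hp, hS2 p hp 0 (by norm_num), hS2 p hp 1 le_rfl⟩
    have hcard : (S.card : ℝ) ≤ (PP X).card := by exact_mod_cast card_le_card hSP
    obtain ⟨L, hL⟩ : ∃ L, L = Real.log (X : ℝ) := ⟨_, rfl⟩
    rw [← hL] at h2 h3 hS3 ⊢
    have hL0 : 0 < L := by linarith
    obtain ⟨n, hn⟩ : ∃ n : ℝ, n = (PP X).card := ⟨_, rfl⟩
    have hn1 : (X : ℝ) ≤ (K * L) ^ 2 * n := by
      rw [hn]
      refine hS3.trans ?_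
      exact mul_le_mul_of_nonneg_left hcard (by positivity)
    have hn2 : (X : ℝ) ^ (1 - η) ≤ n := by
      rw [hn]
      have : 0 ≤ (X : ℝ) ^ (1 - η) := Real.rpow_nonneg hX0.le _
      linarith
    have hn0 : 0 < n := (Real.rpow_pos_of_pos hX0 _).trans_le hn2
    constructor
    · rw [← hn]
      have h5 : (X : ℝ) / L ^ 2 ≤ K ^ 2 * n := by
        rw [div_le_iff₀ (by positivity)]
        calc (X : ℝ) ≤ (K * L) ^ 2 * n := hn1
          _ = K ^ 2 * n * L ^ 2 := by ring
      calc min c (1 / K ^ 2) * (X / L ^ 2) ≤ 1 / K ^ 2 * (K ^ 2 * n) :=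
            mul_le_mul (min_le_right _ _) h5 (by positivity) (by positivity)
        _ = n := by field_simp
    · have h6 := h (fun p => p) X hX (PP X) (fun p hp => by
        unfold PP at hp
        rw [mem_filter, mem_Icc] at hp
        exact ⟨hp.2.1, hp.1.2⟩) (fun _ _ _ _ h => h) (by rw [← hn]; exact hn2)
      refine (key _ (min_le_left _ _) (fun p => p) X (PP X)).trans (h6.trans ?_)
      rw [← hn, ← hL]
      have h7 : (X : ℝ) / (n * L) ≤ K ^ 2 * L := by
        rw [div_le_iff₀ (by positivity)]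
        calc (X : ℝ) ≤ (K * L) ^ 2 * n := hn1
          _ = K ^ 2 * L * (n * L) := by ring
      calc C * (X / (n * L)) ≤ C * (K ^ 2 * L) := mul_le_mul_of_nonneg_left h7 hC.le
        _ = C * K ^ 2 * L := by ring
        _ ≤ max C (C * K ^ 2) * L := mul_le_mul_of_nonneg_right (le_max_right _ _) hL0.le

end Pool.Agent.Results.MP_5d7b92_nt.PrimeIndexedPlusAlmostPrime
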